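import Pool.Agent.Helper74.CO.Goals

/-!
# Project CO, packet EXC1
-/

set_option autoImplicit false

namespace Pool.Agent.Helper59.CO

open Finset Pool.Agent.Helper74.CO

theorem exc1_finish {F : Type} [Field F] (α : F) (p : ℕ) [CharP F p] (E A N : ℕ)
    (hA : 4 * E * A ≤ N) (hp : 8 * E < p) (n0 n1 n0' n1' : ℕ) (hlt : n1' < n1)
    (hn1 : n1 ≤ 8 * E) (hn0 : n0 ≤ A) (hn0' : n0' ≤ A)
    (heq : (n0 : F) + n1 * α = n0' + n1' * α) :
    ∃ (a : ℤ) (d : ℕ), 1 ≤ d ∧ d ≤ 8 * E ∧ 4 * E * |a| ≤ (N : ℤ) ∧ IsCoprime a (d : ℤ) ∧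
      (d : F) * α = a := by
  set d1 : ℕ := n1 - n1' with hd1
  set a1 : ℤ := (n0' : ℤ) - n0 with ha1
  have hd1pos : 0 < d1 := by omega
  have hd1le : d1 ≤ 8 * E := by omega
  have habs : |a1| ≤ A := by
    rw [abs_le]
    omega
  have hrel : (d1 : F) * α = (a1 : F) := by
    rw [hd1, ha1, Nat.cast_sub hlt.le]
    push_cast
    linear_combination heq
  set g : ℕ := Int.gcd a1 d1 with hg
  have hgd : (g : ℤ) ∣ d1 := Int.gcd_dvd_right _ _
  have hga : (g : ℤ) ∣ a1 := Int.gcd_dvd_left _ _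
  have hgd' : g ∣ d1 := by exact_mod_cast hgd
  have hgpos : 0 < g := Nat.pos_of_dvd_of_pos hgd' hd1pos
  have hgle : g ≤ d1 := Nat.le_of_dvd hd1pos hgd'
  obtain ⟨d, hd⟩ := hgd'
  obtain ⟨a, ha⟩ := hga
  have hgF : (g : F) ≠ 0 := by
    intro h0
    rw [CharP.cast_eq_zero_iff F p] at h0
    have := Nat.le_of_dvd hgpos h0
    omega
  refine ⟨a, d, ?_, ?_, ?_, ?_, ?_⟩
  · rcases Nat.eq_zero_or_pos d with h | h
    · rw [h, mul_zero] at hd
      omega
    · exact h
  · have : d ≤ d1 := by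
      rw [hd]
      exact Nat.le_mul_of_pos_left d hgpos
    omega
  · have h1 : |a| ≤ |a1| := by
      rw [ha, abs_mul]
      have h2 : (1 : ℤ) ≤ |(g : ℤ)| := by
        rw [Nat.abs_cast]
        exact_mod_cast hgpos
      nlinarith [abs_nonneg a]
    have h3 : |a| ≤ (A : ℤ) := h1.trans habs
    have h4 : ((4 * E * A : ℕ) : ℤ) ≤ (N : ℤ) := by exact_mod_cast hA
    push_cast at h4
    have h5 : (0 : ℤ) ≤ 4 * E := by positivity
    have h6 := mul_le_mul_of_nonneg_left h3 h5
    linarith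
  · have h1 : 0 < Int.gcd a1 d1 := hgpos
    have h2 := Int.isCoprime_iff_gcd_eq_one.2 (Int.gcd_div_gcd_div_gcd h1)
    have h3 : a1 / (Int.gcd a1 d1 : ℤ) = a := by
      rw [← hg, ha, Int.mul_ediv_cancel_left]
      exact_mod_cast hgpos.ne'
    have h4 : (d1 : ℤ) / (Int.gcd a1 d1 : ℤ) = d := by
      rw [← hg, hd]
      push_cast
      rw [Int.mul_ediv_cancel_left]
      exact_mod_cast hgpos.ne'
    rw [h3, h4] at h2
    exact h2
  · apply mul_left_cancel₀ hgF
    have h1 : (d1 : F) = g * d := by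
      rw [hd]
      push_cast
      rfl
    have h2 : (a1 : F) = g * a := by
      rw [ha]
      push_cast
      rfl
    rw [← mul_assoc, ← h1, ← h2]
    exact hrel

theorem t_EXC1 (hSX : SX) (hSUB : SUB) : Pool.Agent.Helper74.CO.EXC1 := by
  intro E hE
  refine ⟨64 * E ^ 2, ?_⟩
  intro F _ _ _ α X p _ hp hcard hgen hinv h4 hC
  set N := #X with hN
  have hNpos : 0 < N := lt_of_lt_of_le (by positivity) hC
  have hXne : X.Nonempty := Finset.card_pos.1 hNpos
  set A := N / (4 * E) with hA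
  have hAN : 4 * E * A ≤ N := by
    rw [hA]
    exact Nat.mul_div_le N (4 * E)
  have hAN' : N < 4 * E * (A + 1) := by
    rw [hA]
    exact Nat.lt_mul_div_succ N (by omega)
  have h0 : #(X.image (· + (1 : F)) \ X) ≤ E := by
    have := hinv 0
    simpa using this
  have h1 : #(X.image (· + α) \ X) ≤ E * 2 := by
    have := hinv 1
    simpa using this
  have hcost : ∀ n0 n1 : ℕ, #(X.image (· + ((n0 : F) + n1 * α)) \ X) ≤ n0 * E + n1 * (E * 2) := by
    intro n0 n1
    have h := (hSUB F X).2 2 (fun k => if k = 0 then n0 else n1) (fun k => if k = 0 then 1 else α)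
    simp only [Finset.sum_range_succ, Finset.sum_range_zero, zero_add, if_true, mul_one,
      one_ne_zero, if_false] at h
    exact h.trans (Nat.add_le_add (Nat.mul_le_mul_left _ h0) (Nat.mul_le_mul_left _ h1))
  set f : ℕ × ℕ → F := fun z => (z.1 : F) + z.2 * α with hf
  set Dm := range (A + 1) ×ˢ range (8 * E + 1) with hDm
  have hS : #(Dm.image f) ≤ 2 * N := by
    refine hSX F X _ hXne fun s hs => ?_
    rw [Finset.mem_image] at hs
    obtain ⟨z, hz, rfl⟩ := hs
    rw [hDm, Finset.mem_product, Finset.mem_range, Finset.mem_range] at hz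
    have h2 := hcost z.1 z.2
    have h3 : z.1 * E ≤ A * E := Nat.mul_le_mul_right _ (by omega)
    have h5 : z.2 * (E * 2) ≤ 8 * E * (E * 2) := Nat.mul_le_mul_right _ (by omega)
    have h6 : 4 * (A * E) ≤ N := by
      calc 4 * (A * E) = 4 * E * A := by ring
        _ ≤ N := hAN
    have h7 : 4 * (8 * E * (E * 2)) ≤ N := by
      calc 4 * (8 * E * (E * 2)) = 64 * E ^ 2 := by ring
        _ ≤ N := hC
    change 2 * #(X.image (· + ((z.1 : F) + z.2 * α)) \ X) ≤ N
    omega
  have hDcard : #Dm = (A + 1) * (8 * E + 1) := by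
    rw [hDm, Finset.card_product, Finset.card_range, Finset.card_range]
  have hlt : #(Dm.image f) < #Dm := by
    rw [hDcard]
    have h2 : 2 * N < (A + 1) * (8 * E) := by
      calc 2 * N < 2 * (4 * E * (A + 1)) := by omega
        _ = (A + 1) * (8 * E) := by ring
    have h3 : (A + 1) * (8 * E) ≤ (A + 1) * (8 * E + 1) := Nat.mul_le_mul_left _ (by omega)
    omega
  obtain ⟨z, hz, z', hz', hne, heq⟩ := Finset.exists_ne_map_eq_of_card_lt_of_maps_to hlt
    (fun a ha => Finset.mem_image_of_mem f ha)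
  rw [hDm, Finset.mem_product, Finset.mem_range, Finset.mem_range] at hz hz'
  have hpE : 8 * E < p := by
    have h2 : E ≤ E ^ 2 := by nlinarith
    omega
  have heq' : (z.1 : F) + z.2 * α = z'.1 + z'.2 * α := heq
  rcases lt_trichotomy z.2 z'.2 with hc | hc | hc
  · exact exc1_finish α p E A N hAN hpE z'.1 z'.2 z.1 z.2 hc (by omega) (by omega) (by omega)
      heq'.symm
  · exfalso
    rw [hc] at heq'
    have h2 : (z.1 : F) = z'.1 := add_right_cancel heq'
    have hAp : A < p := by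
      have : A ≤ N := Nat.div_le_self _ _
      omega
    have h3 : (z.1 : ℕ) = z'.1 := by
      have h5 : ((z.1 : ℤ) : F) = ((z'.1 : ℤ) : F) := by exact_mod_cast h2
      rw [CharP.intCast_eq_intCast F p] at h5
      have h7 : (z.1 : ℤ) % p = (z'.1 : ℤ) % p := h5
      rw [Int.emod_eq_of_lt (by positivity) (by omega),
        Int.emod_eq_of_lt (by positivity) (by omega)] at h7
      exact_mod_cast h7
    exact hne (Prod.ext h3 hc)
  · exact exc1_finish α p E A N hAN hpE z.1 z.2 z'.1 z'.2 hc (by omega) (by omega) (by omega)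
      heq'

end Pool.Agent.Helper59.CO
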