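import Pool.Agent.Helper74.CO.Goals

/-!
# Project CO, packet LIM and HMC
-/

set_option autoImplicit false

namespace Pool.Agent.Helper59.CO

open Finset Pool.Agent.Helper74.CO

theorem t_LIM : Pool.Agent.Helper74.CO.LIM := by
  intro κ hκ
  set R : ℝ := (9 + 5 * κ) / κ + 1 with hR
  have hR1 : 1 ≤ R := by
    rw [hR]
    have : 0 ≤ (9 + 5 * κ) / κ := by positivity
    linarith
  refine ⟨⌈R ^ 4⌉₊, fun q hq x hx hx2 => ?_⟩
  have hq' : R ^ 4 ≤ (q : ℝ) := (Nat.le_ceil _).trans (by exact_mod_cast hq)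
  set s := √(q : ℝ) with hs
  have hs2 : s ^ 2 = q := Real.sq_sqrt (Nat.cast_nonneg q)
  have hs0 : 0 ≤ s := Real.sqrt_nonneg _
  have hsR : R ^ 2 ≤ s := by
    rw [hs]
    apply Real.le_sqrt_of_sq_le
    calc (R ^ 2) ^ 2 = R ^ 4 := by ring
      _ ≤ _ := hq'
  set r := √s with hr
  have hr2 : r ^ 2 = s := Real.sq_sqrt hs0
  have hr0 : 0 ≤ r := Real.sqrt_nonneg _
  have hrR : R ≤ r := Real.le_sqrt_of_sq_le hsR
  have hx3 : x ≤ 4 * r ^ 3 := by
    apply le_of_sq_le_sq _ (by positivity)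
    calc x ^ 2 ≤ 16 * q * s := hx2
      _ = (4 * r ^ 3) ^ 2 := by
        rw [← hs2, ← hr2]
        ring
  have hr1 : 1 ≤ r := hR1.trans hrR
  have hr3 : 1 ≤ r ^ 3 := one_le_pow₀ hr1
  have hkey : 9 + 5 * κ ≤ κ * r := by
    have h1 : (9 + 5 * κ) / κ ≤ r := by
      have : (9 + 5 * κ) / κ = R - 1 := by rw [hR]; ring
      linarith
    rw [div_le_iff₀ hκ] at h1
    linarith
  have h4 : (9 + 5 * κ) * r ^ 3 ≤ κ * r * r ^ 3 := mul_le_mul_of_nonneg_right hkey (by positivity)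
  have h5 : (q : ℝ) = r ^ 4 := by
    rw [← hs2, ← hr2]
    ring
  have h6 : 5 + 5 * κ ≤ (5 + 5 * κ) * r ^ 3 := by
    have : 0 ≤ 5 + 5 * κ := by positivity
    nlinarith
  rw [h5]
  nlinarith

theorem norm_mulChar_le {F : Type} [Field F] [Fintype F] (χ : MulChar F ℂ) (a : F) :
    ‖χ a‖ ≤ 1 := by
  classical
  by_cases ha : IsUnit a
  · obtain ⟨u, rfl⟩ := ha
    have h1 : (χ (u : F)) ^ Fintype.card Fˣ = 1 := by
      rw [← map_pow, ← Units.val_pow_eq_pow_val, pow_card_eq_one, Units.val_one, map_one]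
    exact (Complex.norm_eq_one_of_pow_eq_one h1 Fintype.card_ne_zero).le
  · rw [χ.map_nonunit ha, norm_zero]
    exact zero_le_one

theorem t_HMC (hHM : HM) (hCOR : ∀ (F : Type) [Field F] [Fintype F] [DecidableEq F], COR F) :
    Pool.Agent.Helper74.CO.HMC := by
  intro κ hκ
  obtain ⟨q₀, hq₀⟩ := t_LIM (κ ^ 2 / 2) (by positivity)
  refine ⟨q₀, ?_⟩
  intro F _ _ _ χ f S hq hχ hf hS
  have h := hHM F (F × F) S f (fun P x => χ (x - P.1) * χ⁻¹ (x - P.2)) κ (κ ^ 2 / 2) hκ.le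
    (by positivity) hf ?_ (fun P hP => (hS P hP).2) ?_
  · linarith
  · intro P _ x
    rw [norm_mul]
    exact mul_le_one₀ (norm_mulChar_le _ _) (norm_nonneg _) (norm_mulChar_le _ _)
  · intro P hP
    refine ⟨P.swap, fun P' hP' hne hne' => ?_⟩
    have hc := hCOR F χ P.1 P.2 P'.1 P'.2 hχ (hS P hP).1 (hS P' hP').1
      (fun hh => hne (Prod.ext hh.1 hh.2)) (fun hh => hne' (Prod.ext hh.1 hh.2))
    have hl := hq₀ (Fintype.card F) hq _ (norm_nonneg _) hc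
    have h2 : 0 ≤ κ ^ 2 / 2 * 5 := by positivity
    linarith

end Pool.Agent.Helper59.CO
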